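import Mathlib

set_option autoImplicit false

namespace Pool.Agent.Results.MP_2b19eb_nt.Miss81

def a (n : ℕ) : ℕ :=
  (Finset.Icc 1 n).lcm id / (∑ k ∈ Finset.Icc 1 n, (1 : ℚ) / k).den

theorem result : (∀ n : ℕ, 1 ≤ n → ¬ 81 ∣ a n) ∧
    ∃ m : ℕ, Odd m ∧ ∀ n : ℕ, 1 ≤ n → a n ≠ m := by
  have : Fact (Nat.Prime 3) := ⟨Nat.prime_three⟩
  have hH : ∀ n : ℕ, ∑ k ∈ Finset.Icc 1 n, (1 : ℚ) / k = harmonic n := fun n => by
    rw [harmonic_eq_sum_Icc]; simp
  have dec : ∀ n : ℕ, padicNorm 3 (harmonic n - harmonic (n / 3) / 3) ≤ 1 := by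
    intro n
    induction n with
    | zero => simp
    | succ n ih =>
      by_cases h : 3 ∣ n + 1
      · obtain ⟨m, hm⟩ := h
        have e : harmonic (n + 1) - harmonic ((n + 1) / 3) / 3 =
            harmonic n - harmonic (n / 3) / 3 := by
          have h1 : (n + 1) / 3 = n / 3 + 1 := by omega
          have h2 : ((n + 1 : ℕ) : ℚ) = 3 * ((n / 3 + 1 : ℕ) : ℚ) := by
            exact_mod_cast (by omega : n + 1 = 3 * (n / 3 + 1))
          rw [h1, harmonic_succ, harmonic_succ, h2]
          field_simp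
          ring
        rw [e]; exact ih
      · have e : harmonic (n + 1) - harmonic ((n + 1) / 3) / 3 =
            (harmonic n - harmonic (n / 3) / 3) + ((n + 1 : ℕ) : ℚ)⁻¹ := by
          rw [show (n + 1) / 3 = n / 3 by omega, harmonic_succ]
          ring
        rw [e]
        refine padicNorm.nonarchimedean.trans (max_le ih ?_)
        rw [← one_div, padicNorm.div, (padicNorm.nat_eq_one_iff _).2 h]
        simp
  have base : ∀ n ∈ Finset.Ico 27 81, (harmonic n).num % 3 ≠ 0 := by decide +kernel
  have key : ∀ n : ℕ, 27 ≤ n → (3 : ℚ) ^ (Nat.log 3 n - 3) ≤ padicNorm 3 (harmonic n) := by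
    intro n
    induction n using Nat.strong_induction_on with
    | _ n ih =>
      intro hn
      rcases Nat.lt_or_ge n 81 with h | h
      · have hl : Nat.log 3 n = 3 := (Nat.log_eq_iff (Or.inl (by norm_num))).2 ⟨hn, h⟩
        have hb := base n (Finset.mem_Ico.2 ⟨hn, h⟩)
        rw [hl, ← Rat.num_div_den (harmonic n), padicNorm.div,
          (padicNorm.int_eq_one_iff _).2 (fun hd => hb (Int.emod_eq_zero_of_dvd hd))]
        have h1 := padicNorm.of_nat (p := 3) (harmonic n).den
        have h2 : 0 < padicNorm 3 ((harmonic n).den : ℚ) :=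
          lt_of_le_of_ne (padicNorm.nonneg _)
            (padicNorm.nonzero (by exact_mod_cast (harmonic n).den_nz)).symm
        rw [le_div_iff₀ h2]
        simpa using h1
      · have h1 := ih (n / 3) (by omega) (by omega)
        have hl : Nat.log 3 n = Nat.log 3 (n / 3) + 1 := Nat.log_of_one_lt_of_le (by norm_num) (by omega)
        have hl3 : 3 ≤ Nat.log 3 (n / 3) := (Nat.le_log_iff_pow_le (by norm_num) (by omega)).2 (by omega)
        have h3 : padicNorm 3 (harmonic (n / 3) / 3) = 3 * padicNorm 3 (harmonic (n / 3)) := by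
          have := padicNorm.padicNorm_p_of_prime (p := 3)
          rw [padicNorm.div]
          push_cast at this
          rw [this]
          ring
        have h4 : (1 : ℚ) ≤ 3 ^ (Nat.log 3 (n / 3) - 3) := one_le_pow₀ (by norm_num)
        have h5 := dec n
        have e : harmonic n = harmonic (n / 3) / 3 + (harmonic n - harmonic (n / 3) / 3) := by ring
        rw [e, padicNorm.add_eq_max_of_ne (by rw [h3]; linarith), h3, hl,
          show Nat.log 3 (n / 3) + 1 - 3 = Nat.log 3 (n / 3) - 3 + 1 by omega, pow_succ]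
        exact le_max_of_le_left (by linarith)
  have hden : ∀ n : ℕ, 3 ^ (Nat.log 3 n - 3) ∣ (harmonic n).den := by
    intro n
    rcases Nat.lt_or_ge n 27 with h | h
    · have : Nat.log 3 n < 3 := by
        rcases Nat.eq_zero_or_pos n with rfl | h0
        · simp
        · exact (Nat.log_lt_iff_lt_pow (by norm_num) (by omega)).2 h
      rw [show Nat.log 3 n - 3 = 0 by omega]
      simp
    · have h1 := key n h
      rw [← Rat.num_div_den (harmonic n), padicNorm.div] at h1
      have h2 : 0 < padicNorm 3 ((harmonic n).den : ℚ) :=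
        lt_of_le_of_ne (padicNorm.nonneg _)
          (padicNorm.nonzero (by exact_mod_cast (harmonic n).den_nz)).symm
      have h3 := padicNorm.of_int (p := 3) (harmonic n).num
      rw [le_div_iff₀ h2] at h1
      have h4 : padicNorm 3 (((harmonic n).den : ℤ) : ℚ) ≤
          ((3 : ℕ) : ℚ) ^ (-((Nat.log 3 n - 3 : ℕ) : ℤ)) := by
        rw [zpow_neg, zpow_natCast, ← one_div, le_div_iff₀ (by positivity)]
        push_cast
        linarith
      exact_mod_cast padicNorm.dvd_iff_norm_le.2 h4
  have main : ∀ n : ℕ, 1 ≤ n → ¬ 81 ∣ a n := by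
    intro n hn h
    have hL : (Finset.Icc 1 n).lcm id ≠ 0 := by
      rw [Finset.lcm_ne_zero_iff]
      intro x hx
      have := (Finset.mem_Icc.1 hx).1
      simp only [id]
      omega
    have hd : (harmonic n).den ∣ (Finset.Icc 1 n).lcm id := by
      generalize hM : (Finset.Icc 1 n).lcm id = M at hL
      have e : harmonic n = ((∑ k ∈ Finset.Icc 1 n, M / k : ℕ) : ℤ) / ((M : ℕ) : ℤ) := by
        rw [← hH, Int.cast_natCast, Int.cast_natCast, Nat.cast_sum, Finset.sum_div]
        refine Finset.sum_congr rfl fun k hk => ?_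
        have h1 : (k : ℚ) ≠ 0 := by have := (Finset.mem_Icc.1 hk).1; positivity
        have h2 : (M : ℚ) ≠ 0 := by exact_mod_cast hL
        have h3 : k ∣ M := hM ▸ Finset.dvd_lcm (f := id) hk
        rw [Nat.cast_div h3 h1]
        field_simp
      rw [e, ← Rat.divInt_eq_div]
      exact Int.natCast_dvd_natCast.1 (Rat.den_dvd _ _)
    rw [a, hH] at h
    have h1 : 3 ^ (Nat.log 3 n + 1) ∣ (Finset.Icc 1 n).lcm id := by
      rw [← Nat.div_mul_cancel hd]
      refine Dvd.dvd.trans ?_ (Nat.mul_dvd_mul h (hden n))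
      rw [show (81 : ℕ) = 3 ^ 4 by norm_num, ← pow_add]
      exact pow_dvd_pow _ (by omega)
    have h2 := (Nat.prime_three.pow_dvd_iff_le_factorization hL).1 h1
    have h3 := Nat.factorization_lcmUpto n Nat.prime_three
    rw [Nat.lcmUpto] at h3
    omega
  exact ⟨main, 81, by decide, fun n hn h => main n hn (h ▸ dvd_rfl)⟩

end Pool.Agent.Results.MP_2b19eb_nt.Miss81
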